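import Mathlib
import Pool.Agent.Y113.MT.PStm
import Pool.Agent.Y780.MT.Idl
import Pool.Agent.Y261.MT.DES

/-!
# Project MT (helper113), fourth part, job WF: one fibre times `W`
-/

set_option autoImplicit false
set_option maxHeartbeats 1000000

open Matrix Pool.Agent.Y113.MT

namespace Pool.Agent.Y861.MT

/-- eigenvectors with other eigenvalues can be removed -/
lemma key {V ι : Type} [AddCommGroup V] [Module ℂ V] {D : V →ₗ[ℂ] V} {L : Submodule ℂ V} (hL : ∀ x ∈ L, D x ∈ L)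
    {e : V} {l : ℂ} (he : D e = l • e) (μ : ι → ℂ) (T : Finset ι) :
    (∀ i ∈ T, μ i ≠ l) → ∀ (y : ι → V), (∀ i ∈ T, D (y i) = μ i • y i) → ∀ a : ℂ, a ≠ 0 →
      a • e + ∑ i ∈ T, y i ∈ L → e ∈ L := by
  classical
  induction T using Finset.induction_on with
  | empty =>
    intro _ y _ a ha h
    rw [Finset.sum_empty, add_zero] at h
    have := L.smul_mem a⁻¹ h
    rwa [smul_smul, inv_mul_cancel₀ ha, one_smul] at this
  | insert j T hj ih =>
    intro hT y hy a ha h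
    refine ih (fun i hi => hT i (Finset.mem_insert_of_mem hi)) (fun i => (μ i - μ j) • y i) ?_ (a * (l - μ j)) ?_ ?_
    · intro i hi
      rw [map_smul, hy i (Finset.mem_insert_of_mem hi), smul_comm]
    · exact mul_ne_zero ha (sub_ne_zero.2 (hT j (Finset.mem_insert_self _ _)).symm)
    · have h1 := L.sub_mem (hL _ h) (L.smul_mem (μ j) h)
      have h2 : ∑ i ∈ T, (μ i - μ j) • y i = ∑ i ∈ T, μ i • y i - μ j • ∑ i ∈ T, y i := by
        rw [Finset.smul_sum, ← Finset.sum_sub_distrib]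
        exact Finset.sum_congr rfl fun i _ => sub_smul _ _ _
      have h3 : D (a • e + ∑ i ∈ insert j T, y i) = (a * l) • e + (μ j • y j + ∑ i ∈ T, μ i • y i) := by
        rw [map_add, map_smul, he, map_sum, Finset.sum_insert hj, hy j (Finset.mem_insert_self _ _), smul_smul]
        congr 2
        exact Finset.sum_congr rfl fun i hi => hy i (Finset.mem_insert_of_mem hi)
      rw [h3, Finset.sum_insert hj] at h1
      rw [h2]
      convert h1 using 1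
      module

/-- a basis adapted to the grading -/
lemma adapt {N : ℕ} {U : ℤ → Submodule ℂ (Fin N → ℂ)} (hU : DirectSum.IsInternal U) :
    ∃ (C : Matrix (Fin N) (Fin N) ℂ) (d : Fin N → ℤ), IsUnit C.det ∧ (∀ i, C i ∈ U (d i)) ∧ ∀ i, U (d i) ≠ ⊥ := by
  classical
  let b0 := hU.collectedBasis fun p => Module.finBasis ℂ (U p)
  let e := b0.indexEquiv (Pi.basisFun ℂ (Fin N))
  let b := b0.reindex e
  have hb : ∀ i, b i ∈ U (e.symm i).1 := by
    intro i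
    rw [Module.Basis.reindex_apply]
    exact hU.collectedBasis_mem _ _
  refine ⟨Matrix.of fun i => b i, fun i => (e.symm i).1, ?_, hb, ?_⟩
  · rw [← Matrix.isUnit_iff_isUnit_det]
    exact Matrix.linearIndependent_rows_iff_isUnit.1 b.linearIndependent
  · intro i h
    have h1 := hb i
    rw [h, Submodule.mem_bot] at h1
    exact b.ne_zero i h1

/-- the adjoint action on pairs of matrices -/
def ad {n N : ℕ} (x : Matrix (Fin n) (Fin n) ℂ × Matrix (Fin N) (Fin N) ℂ) :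
    (Matrix (Fin n) (Fin n) ℂ × Matrix (Fin N) (Fin N) ℂ) →ₗ[ℂ] (Matrix (Fin n) (Fin n) ℂ × Matrix (Fin N) (Fin N) ℂ) where
  toFun y := (x.1 * y.1 - y.1 * x.1, x.2 * y.2 - y.2 * x.2)
  map_add' y z := by
    ext1
    · show x.1 * (y.1 + z.1) - (y.1 + z.1) * x.1 = (x.1 * y.1 - y.1 * x.1) + (x.1 * z.1 - z.1 * x.1)
      rw [Matrix.mul_add, Matrix.add_mul]
      abel
    · show x.2 * (y.2 + z.2) - (y.2 + z.2) * x.2 = (x.2 * y.2 - y.2 * x.2) + (x.2 * z.2 - z.2 * x.2)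
      rw [Matrix.mul_add, Matrix.add_mul]
      abel
  map_smul' a y := by
    ext1
    · show x.1 * (a • y.1) - (a • y.1) * x.1 = a • (x.1 * y.1 - y.1 * x.1)
      rw [Matrix.mul_smul, Matrix.smul_mul, smul_sub]
    · show x.2 * (a • y.2) - (a • y.2) * x.2 = a • (x.2 * y.2 - y.2 * x.2)
      rw [Matrix.mul_smul, Matrix.smul_mul, smul_sub]

/-- the complexification of a rational space of pairs -/
def cx {n N : ℕ} (𝔫 : Submodule ℚ (Matrix (Fin n) (Fin n) ℚ × Matrix (Fin N) (Fin N) ℚ)) :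
    Submodule ℂ (Matrix (Fin n) (Fin n) ℂ × Matrix (Fin N) (Fin N) ℂ) :=
  Submodule.span ℂ ((fun X : Matrix (Fin n) (Fin n) ℚ × Matrix (Fin N) (Fin N) ℚ => (cq X.1, cq X.2)) '' (𝔫 : Set _))

lemma ad_mem {n N : ℕ} {𝔫 : Submodule ℚ (Matrix (Fin n) (Fin n) ℚ × Matrix (Fin N) (Fin N) ℚ)}
    (hbr : ∀ X ∈ 𝔫, ∀ Y ∈ 𝔫, (X.1 * Y.1 - Y.1 * X.1, X.2 * Y.2 - Y.2 * X.2) ∈ 𝔫)
    {x y : Matrix (Fin n) (Fin n) ℂ × Matrix (Fin N) (Fin N) ℂ} (hx : x ∈ cx 𝔫) (hy : y ∈ cx 𝔫) : ad x y ∈ cx 𝔫 := by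
  have h1 : ∀ X ∈ 𝔫, ∀ y ∈ cx 𝔫, ad ((cq X.1, cq X.2) : Matrix (Fin n) (Fin n) ℂ × Matrix (Fin N) (Fin N) ℂ) y ∈ cx 𝔫 := by
    intro X hX y hy
    have h2 : cx 𝔫 ≤ (cx 𝔫).comap (ad ((cq X.1, cq X.2) : Matrix (Fin n) (Fin n) ℂ × Matrix (Fin N) (Fin N) ℂ)) := by
      refine Submodule.span_le.2 ?_
      rintro _ ⟨Y, hY, rfl⟩
      refine Submodule.subset_span ⟨_, hbr X hX Y hY, ?_⟩
      show (cq (X.1 * Y.1 - Y.1 * X.1), cq (X.2 * Y.2 - Y.2 * X.2)) = _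
      rw [cq_sub, cq_sub, cq_mul, cq_mul, cq_mul, cq_mul]
      rfl
    exact h2 hy
  have h2 : cx 𝔫 ≤ (cx 𝔫).comap (ad y) := by
    refine Submodule.span_le.2 ?_
    rintro _ ⟨X, hX, rfl⟩
    show ad y (cq X.1, cq X.2) ∈ cx 𝔫
    have h3 : ad y (cq X.1, cq X.2) = -ad (cq X.1, cq X.2) y := by
      show (y.1 * cq X.1 - cq X.1 * y.1, y.2 * cq X.2 - cq X.2 * y.2) = (-(cq X.1 * y.1 - y.1 * cq X.1), -(cq X.2 * y.2 - y.2 * cq X.2))
      rw [neg_sub, neg_sub]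
    rw [h3]
    exact Submodule.neg_mem _ (h1 X hX y hy)
  have h3 : ad x y = -ad y x := by
    show (x.1 * y.1 - y.1 * x.1, x.2 * y.2 - y.2 * x.2) = (-(y.1 * x.1 - x.1 * y.1), -(y.2 * x.2 - x.2 * y.2))
    rw [neg_sub, neg_sub]
  rw [h3]
  exact Submodule.neg_mem _ (h2 hx)

/-- descent from `ℂ` to `ℚ` -/
lemma descent {n N : ℕ} {𝔫 : Submodule ℚ (Matrix (Fin n) (Fin n) ℚ × Matrix (Fin N) (Fin N) ℚ)}
    {X : Matrix (Fin n) (Fin n) ℚ × Matrix (Fin N) (Fin N) ℚ} (h : (cq X.1, cq X.2) ∈ cx 𝔫) : X ∈ 𝔫 := by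
  by_contra hX
  obtain ⟨f, hf0, hf⟩ := Submodule.exists_le_ker_of_notMem hX
  have hsum : ∀ (n : ℕ) (g : Matrix (Fin n) (Fin n) ℚ →ₗ[ℚ] ℚ) (Y : Matrix (Fin n) (Fin n) ℚ),
      g Y = ∑ i, ∑ j, Y i j * g (Matrix.single i j 1) := by
    intro n g Y
    conv_lhs => rw [Matrix.matrix_eq_sum_single Y]
    rw [map_sum]
    refine Finset.sum_congr rfl fun i _ => ?_
    rw [map_sum]
    refine Finset.sum_congr rfl fun j _ => ?_
    rw [show Matrix.single i j (Y i j) = Y i j • Matrix.single i j (1 : ℚ) by rw [Matrix.smul_single, smul_eq_mul, mul_one], map_smul,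
      smul_eq_mul]
  let g1 : Matrix (Fin n) (Fin n) ℚ →ₗ[ℚ] ℚ := f ∘ₗ LinearMap.inl ℚ _ _
  let g2 : Matrix (Fin N) (Fin N) ℚ →ₗ[ℚ] ℚ := f ∘ₗ LinearMap.inr ℚ _ _
  have hfg : ∀ Y : Matrix (Fin n) (Fin n) ℚ × Matrix (Fin N) (Fin N) ℚ, f Y = g1 Y.1 + g2 Y.2 := by
    intro Y
    show f Y = f (Y.1, 0) + f (0, Y.2)
    rw [← map_add]
    congr 1
    ext1
    · show Y.1 = Y.1 + 0
      rw [add_zero]
    · show Y.2 = 0 + Y.2
      rw [zero_add]
  let F : (Matrix (Fin n) (Fin n) ℂ × Matrix (Fin N) (Fin N) ℂ) →ₗ[ℂ] ℂ :=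
    { toFun := fun y => ∑ i, ∑ j, y.1 i j * ((g1 (Matrix.single i j 1) : ℚ) : ℂ) +
        ∑ i, ∑ j, y.2 i j * ((g2 (Matrix.single i j 1) : ℚ) : ℂ)
      map_add' := by
        intro y z
        simp only [Prod.fst_add, Prod.snd_add, Matrix.add_apply, add_mul, Finset.sum_add_distrib]
        ring
      map_smul' := by
        intro a y
        simp only [Prod.smul_fst, Prod.smul_snd, Matrix.smul_apply, smul_eq_mul, RingHom.id_apply, mul_add, Finset.mul_sum,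
          mul_assoc] }
  have hF : ∀ Y : Matrix (Fin n) (Fin n) ℚ × Matrix (Fin N) (Fin N) ℚ, F (cq Y.1, cq Y.2) = ((f Y : ℚ) : ℂ) := by
    intro Y
    rw [hfg, hsum n g1, hsum N g2]
    push_cast
    rfl
  have h1 : cx 𝔫 ≤ LinearMap.ker F := by
    refine Submodule.span_le.2 ?_
    rintro _ ⟨Y, hY, rfl⟩
    show F (cq Y.1, cq Y.2) = 0
    rw [hF, show f Y = 0 from hf hY, Rat.cast_zero]
  have h2 : F (cq X.1, cq X.2) = 0 := h1 h
  rw [hF] at h2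
  exact hf0 (by exact_mod_cast h2)

/-- complex elements of the symplectic Lie algebra are combinations of rational ones -/
lemma sp_des {n : ℕ} {A : Matrix (Fin n) (Fin n) ℚ} {X : Matrix (Fin n) (Fin n) ℂ} (hX : X * cq A + cq A * Xᵀ = 0) :
    X ∈ Submodule.span ℂ (cq '' {X' : Matrix (Fin n) (Fin n) ℚ | X' * A + A * X'ᵀ = 0}) := by
  have key : ∀ (F : Type) [Field F] (A X : Matrix (Fin n) (Fin n) F) (k : Fin n × Fin n),
      ∑ i : Fin n × Fin n, ((if i.1 = k.1 then A i.2 k.2 else 0) + if i.1 = k.2 then A k.1 i.2 else 0) * X i.1 i.2 =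
        (X * A + A * Xᵀ) k.1 k.2 := by
    intro F _ A X k
    rw [Fintype.sum_prod_type, Matrix.add_apply, Matrix.mul_apply, Matrix.mul_apply]
    simp only [add_mul, ite_mul, zero_mul, Finset.sum_add_distrib]
    congr 1
    · rw [Finset.sum_comm]
      refine Finset.sum_congr rfl fun l _ => ?_
      rw [Finset.sum_ite_eq', if_pos (Finset.mem_univ _), mul_comm]
    · rw [Finset.sum_comm]
      refine Finset.sum_congr rfl fun l _ => ?_
      rw [Finset.sum_ite_eq', if_pos (Finset.mem_univ _), Matrix.transpose_apply]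
  have h1 := Pool.Agent.Y261.MT.des (Fin n × Fin n) (Fin n × Fin n)
    (fun k i => (if i.1 = k.1 then A i.2 k.2 else 0) + if i.1 = k.2 then A k.1 i.2 else 0) (fun i => X i.1 i.2) (by
    intro k
    have h2 := key ℂ (cq A) X k
    rw [hX, Matrix.zero_apply] at h2
    rw [← h2]
    refine Finset.sum_congr rfl fun i _ => ?_
    congr 1
    push_cast
    congr 1
    · split_ifs <;> simp [cq_apply]
    · split_ifs <;> simp [cq_apply])
  let φ : (Fin n × Fin n → ℂ) →ₗ[ℂ] Matrix (Fin n) (Fin n) ℂ :=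
    { toFun := fun y => Matrix.of fun j l => y (j, l)
      map_add' := fun _ _ => rfl
      map_smul' := fun _ _ => rfl }
  have h2 : φ (fun i => X i.1 i.2) ∈ Submodule.map φ (Submodule.span ℂ _) := Submodule.mem_map_of_mem h1
  rw [Submodule.map_span] at h2
  refine Submodule.span_mono ?_ h2
  rintro _ ⟨y, ⟨z, hz, rfl⟩, rfl⟩
  refine ⟨Matrix.of fun j l => z (j, l), ?_, rfl⟩
  show _ = _
  ext a b
  have h3 := hz (a, b)
  have h4 := key ℚ A (Matrix.of fun j l => z (j, l)) (a, b)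
  rw [← h4]
  exact h3

lemma EE_sp {m : ℕ} : EE ℂ (2 * m) * SS ℂ (2 * m) + SS ℂ (2 * m) * (EE ℂ (2 * m))ᵀ = 0 := by
  ext i j
  rw [Matrix.add_apply, Matrix.zero_apply, mul_SS, SS_mul, Matrix.transpose_apply]
  unfold EE
  rw [Matrix.of_apply, Matrix.of_apply, Fin.val_rev, Fin.val_rev]
  have hi := i.2
  have hj := j.2
  by_cases h1 : (i : ℕ) = 0
  · by_cases h2 : (j : ℕ) = 0
    · rw [if_pos ⟨h1, by omega⟩, if_pos ⟨h2, by omega⟩, h1, h2, one_mul, mul_one, pow_zero,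
        show 2 * m - (0 + 1) = 2 * (m - 1) + 1 by omega, pow_succ, pow_mul]
      norm_num
    · rw [if_neg (by omega), if_neg (by omega)]
      simp
  · rw [if_neg (by omega), if_neg (by omega)]
    simp

/-- **WF** -/
theorem wf : S_WF := by
  intro m N hm A B c U hc hBA hU hgap 𝔫 hbr hlift Φ ΦW hΦ hΦW hmem X0 hX0
  change (Φ, ΦW) ∈ cx 𝔫 at hmem
  have hBd : B.det ≠ 0 := by
    intro h0
    have h1 := congrArg Matrix.det hBA
    rw [Matrix.det_mul, Matrix.det_mul, h0, zero_mul, zero_mul, Matrix.det_smul] at h1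
    exact mul_ne_zero (pow_ne_zero _ hc) (SS_det m) h1.symm
  have hBu : IsUnit B.det := isUnit_iff_ne_zero.2 hBd
  have hBTu : IsUnit Bᵀ.det := by rwa [Matrix.det_transpose]
  have hBB : B * B⁻¹ = 1 := Matrix.mul_nonsing_inv _ hBu
  have hBB' : B⁻¹ * B = 1 := Matrix.nonsing_inv_mul _ hBu
  -- transport of the symplectic Lie algebra
  have hsp : ∀ X : Matrix (Fin (2 * m)) (Fin (2 * m)) ℂ, X * SS ℂ (2 * m) + SS ℂ (2 * m) * Xᵀ = 0 →
      (B⁻¹ * X * B) * cq A + cq A * (B⁻¹ * X * B)ᵀ = 0 := by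
    intro X hX
    have hA0 : cq A = c • (B⁻¹ * SS ℂ (2 * m) * Bᵀ⁻¹) := by
      calc cq A = (B⁻¹ * B) * cq A * (Bᵀ * Bᵀ⁻¹) := by
            rw [hBB', Matrix.mul_nonsing_inv _ hBTu, Matrix.one_mul, Matrix.mul_one]
        _ = B⁻¹ * (B * cq A * Bᵀ) * Bᵀ⁻¹ := by simp only [Matrix.mul_assoc]
        _ = _ := by rw [hBA, Matrix.mul_smul, Matrix.smul_mul]
    have e1 : (B⁻¹ * X * B) * cq A = c • (B⁻¹ * (X * SS ℂ (2 * m)) * Bᵀ⁻¹) := by
      rw [hA0, Matrix.mul_smul]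
      congr 1
      calc B⁻¹ * X * B * (B⁻¹ * SS ℂ (2 * m) * Bᵀ⁻¹) = B⁻¹ * X * (B * B⁻¹) * SS ℂ (2 * m) * Bᵀ⁻¹ := by
            simp only [Matrix.mul_assoc]
        _ = _ := by
            rw [hBB, Matrix.mul_one]
            simp only [Matrix.mul_assoc]
    have e2 : cq A * (B⁻¹ * X * B)ᵀ = c • (B⁻¹ * (SS ℂ (2 * m) * Xᵀ) * Bᵀ⁻¹) := by
      rw [hA0, Matrix.smul_mul]
      congr 1
      rw [Matrix.transpose_mul, Matrix.transpose_mul, Matrix.transpose_nonsing_inv]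
      calc B⁻¹ * SS ℂ (2 * m) * Bᵀ⁻¹ * (Bᵀ * (Xᵀ * Bᵀ⁻¹)) = B⁻¹ * SS ℂ (2 * m) * (Bᵀ⁻¹ * Bᵀ) * Xᵀ * Bᵀ⁻¹ := by
            simp only [Matrix.mul_assoc]
        _ = _ := by
            rw [Matrix.nonsing_inv_mul _ hBTu, Matrix.mul_one]
            simp only [Matrix.mul_assoc]
    rw [e1, e2, ← smul_add, ← Matrix.add_mul, ← Matrix.mul_add, hX, Matrix.mul_zero, Matrix.zero_mul, smul_zero]
  have hliftC : ∀ X : Matrix (Fin (2 * m)) (Fin (2 * m)) ℂ, X * SS ℂ (2 * m) + SS ℂ (2 * m) * Xᵀ = 0 →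
      ∃ Y, (B⁻¹ * X * B, Y) ∈ cx 𝔫 := by
    intro X hX
    have h1 : Submodule.span ℂ (cq '' {X' : Matrix (Fin (2 * m)) (Fin (2 * m)) ℚ | X' * A + A * X'ᵀ = 0}) ≤
        (cx 𝔫).map (LinearMap.fst ℂ _ _) := by
      refine Submodule.span_le.2 ?_
      rintro _ ⟨X', hX', rfl⟩
      obtain ⟨Y, hY⟩ := hlift X' hX'
      exact ⟨(cq X', cq Y), Submodule.subset_span ⟨_, hY, rfl⟩, rfl⟩
    obtain ⟨⟨Z, Y⟩, hZ, h2⟩ := h1 (sp_des (hsp X hX))
    refine ⟨Y, ?_⟩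
    rw [← h2]
    exact hZ
  -- the basis of `W`
  obtain ⟨C, d, hC, hCU, hd⟩ := adapt hU
  have hCC : C * C⁻¹ = 1 := Matrix.mul_nonsing_inv _ hC
  have hCC' : C⁻¹ * C = 1 := Matrix.nonsing_inv_mul _ hC
  have hCΦ : C * ΦW = Matrix.diagonal (fun i => (d i : ℂ)) * C := by
    ext i j
    have h1 := congrFun (hΦW (d i) (C i) (hCU i)) j
    rw [Matrix.diagonal_mul]
    exact h1
  have hΦC : ΦW * C⁻¹ = C⁻¹ * Matrix.diagonal (fun i => (d i : ℂ)) := by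
    calc ΦW * C⁻¹ = C⁻¹ * C * (ΦW * C⁻¹) := by rw [hCC', Matrix.one_mul]
      _ = C⁻¹ * (C * ΦW) * C⁻¹ := by simp only [Matrix.mul_assoc]
      _ = C⁻¹ * Matrix.diagonal (fun i => (d i : ℂ)) * (C * C⁻¹) := by
          rw [hCΦ]
          simp only [Matrix.mul_assoc]
      _ = _ := by rw [hCC, Matrix.mul_one]
  -- the long root element
  set Dg : Matrix (Fin (2 * m)) (Fin (2 * m)) ℂ := Matrix.diagonal (fun i : Fin (2 * m) => ((2 * m - 1 - (i : ℕ) : ℕ) : ℂ)) with hDg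
  have hΦB : Φ * B⁻¹ = B⁻¹ * Dg := by
    calc Φ * B⁻¹ = B⁻¹ * B * (Φ * B⁻¹) := by rw [hBB', Matrix.one_mul]
      _ = B⁻¹ * (B * Φ) * B⁻¹ := by simp only [Matrix.mul_assoc]
      _ = B⁻¹ * Dg * (B * B⁻¹) := by
          rw [hΦ]
          simp only [Matrix.mul_assoc]
      _ = _ := by rw [hBB, Matrix.mul_one]
  have hDE : Dg * EE ℂ (2 * m) - EE ℂ (2 * m) * Dg = ((2 * (m : ℂ) - 1)) • EE ℂ (2 * m) := by
    ext i j
    rw [hDg, Matrix.sub_apply, Matrix.diagonal_mul, Matrix.mul_diagonal, Matrix.smul_apply, smul_eq_mul]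
    unfold EE
    rw [Matrix.of_apply]
    split_ifs with h
    · rw [h.1, Nat.sub_zero, show 2 * m - 1 - (j : ℕ) = 0 by omega, Nat.cast_sub (show 1 ≤ 2 * m by omega)]
      push_cast
      ring
    · ring
  have hadE : ad (Φ, ΦW) (B⁻¹ * EE ℂ (2 * m) * B, (0 : Matrix (Fin N) (Fin N) ℂ)) =
      (2 * (m : ℂ) - 1) • (B⁻¹ * EE ℂ (2 * m) * B, (0 : Matrix (Fin N) (Fin N) ℂ)) := by
    ext1
    · show Φ * (B⁻¹ * EE ℂ (2 * m) * B) - B⁻¹ * EE ℂ (2 * m) * B * Φ = (2 * (m : ℂ) - 1) • (B⁻¹ * EE ℂ (2 * m) * B)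
      calc Φ * (B⁻¹ * EE ℂ (2 * m) * B) - B⁻¹ * EE ℂ (2 * m) * B * Φ =
          (Φ * B⁻¹) * EE ℂ (2 * m) * B - B⁻¹ * EE ℂ (2 * m) * (B * Φ) := by simp only [Matrix.mul_assoc]
        _ = B⁻¹ * (Dg * EE ℂ (2 * m) - EE ℂ (2 * m) * Dg) * B := by
          rw [hΦB, hΦ, Matrix.mul_sub, Matrix.sub_mul]
          simp only [Matrix.mul_assoc]
        _ = _ := by rw [hDE, Matrix.mul_smul, Matrix.smul_mul]
    · show ΦW * 0 - 0 * ΦW = (2 * (m : ℂ) - 1) • (0 : Matrix (Fin N) (Fin N) ℂ)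
      rw [Matrix.mul_zero, Matrix.zero_mul, sub_zero, smul_zero]
  obtain ⟨Y, hY⟩ := hliftC _ EE_sp
  have hE : (B⁻¹ * EE ℂ (2 * m) * B, (0 : Matrix (Fin N) (Fin N) ℂ)) ∈ cx 𝔫 := by
    refine key (D := ad (Φ, ΦW)) (fun x hx => ad_mem hbr hmem hx) hadE (fun x : Fin N × Fin N => ((d x.1 : ℂ) - (d x.2 : ℂ)))
      Finset.univ ?_ (fun x => (0, C⁻¹ * Matrix.single x.1 x.2 ((C * Y * C⁻¹) x.1 x.2) * C)) ?_ 1 one_ne_zero ?_
    · rintro ⟨i, j⟩ _ h
      have h1 : d j = d i - (2 * (m : ℤ) - 1) := by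
        have h2 : ((d i : ℂ) - (d j : ℂ)) = 2 * (m : ℂ) - 1 := h
        have h3 : d i - d j = 2 * (m : ℤ) - 1 := by exact_mod_cast h2
        omega
      have h2 := hgap (d i) (hd i)
      rw [← h1] at h2
      exact hd j h2
    · rintro ⟨i, j⟩ _
      ext1
      · show Φ * 0 - 0 * Φ = ((d i : ℂ) - (d j : ℂ)) • (0 : Matrix (Fin (2 * m)) (Fin (2 * m)) ℂ)
        rw [Matrix.mul_zero, Matrix.zero_mul, sub_zero, smul_zero]
      · set a := (C * Y * C⁻¹) i j with ha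
        show ΦW * (C⁻¹ * Matrix.single i j a * C) - C⁻¹ * Matrix.single i j a * C * ΦW =
          ((d i : ℂ) - (d j : ℂ)) • (C⁻¹ * Matrix.single i j a * C)
        have h1 : Matrix.diagonal (fun i => (d i : ℂ)) * Matrix.single i j a - Matrix.single i j a * Matrix.diagonal (fun i => (d i : ℂ)) =
            ((d i : ℂ) - (d j : ℂ)) • Matrix.single i j a := by
          ext u v
          rw [Matrix.sub_apply, Matrix.diagonal_mul, Matrix.mul_diagonal, Matrix.smul_apply, smul_eq_mul, Matrix.single_apply]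
          split_ifs with h
          · rw [h.1, h.2]
            ring
          · ring
        calc ΦW * (C⁻¹ * Matrix.single i j a * C) - C⁻¹ * Matrix.single i j a * C * ΦW =
            (ΦW * C⁻¹) * Matrix.single i j a * C - C⁻¹ * Matrix.single i j a * (C * ΦW) := by simp only [Matrix.mul_assoc]
          _ = C⁻¹ * (Matrix.diagonal (fun i => (d i : ℂ)) * Matrix.single i j a -
              Matrix.single i j a * Matrix.diagonal (fun i => (d i : ℂ))) * C := by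
            rw [hΦC, hCΦ, Matrix.mul_sub, Matrix.sub_mul]
            simp only [Matrix.mul_assoc]
          _ = _ := by rw [h1, Matrix.mul_smul, Matrix.smul_mul]
    · have h1 : (1 : ℂ) • (B⁻¹ * EE ℂ (2 * m) * B, (0 : Matrix (Fin N) (Fin N) ℂ)) +
          ∑ x : Fin N × Fin N, ((0 : Matrix (Fin (2 * m)) (Fin (2 * m)) ℂ), C⁻¹ * Matrix.single x.1 x.2 ((C * Y * C⁻¹) x.1 x.2) * C) =
            (B⁻¹ * EE ℂ (2 * m) * B, Y) := by
        rw [one_smul]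
        ext1
        · rw [Prod.fst_add, Prod.fst_sum]
          simp
        · rw [Prod.snd_add, Prod.snd_sum]
          show (0 : Matrix (Fin N) (Fin N) ℂ) + ∑ x : Fin N × Fin N, C⁻¹ * Matrix.single x.1 x.2 ((C * Y * C⁻¹) x.1 x.2) * C = Y
          rw [zero_add, ← Finset.sum_mul, ← Finset.mul_sum, Fintype.sum_prod_type]
          show C⁻¹ * (∑ i, ∑ j, Matrix.single i j ((C * Y * C⁻¹) i j)) * C = Y
          rw [← Matrix.matrix_eq_sum_single (C * Y * C⁻¹)]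
          calc C⁻¹ * (C * Y * C⁻¹) * C = (C⁻¹ * C) * Y * (C⁻¹ * C) := by simp only [Matrix.mul_assoc]
            _ = Y := by rw [hCC', Matrix.one_mul, Matrix.mul_one]
      rw [h1]
      exact hY
  -- the ideal
  let ψ : Matrix (Fin (2 * m)) (Fin (2 * m)) ℂ →ₗ[ℂ] (Matrix (Fin (2 * m)) (Fin (2 * m)) ℂ × Matrix (Fin N) (Fin N) ℂ) :=
    { toFun := fun X => (B⁻¹ * X * B, 0)
      map_add' := by
        intro X X'
        ext1
        · show B⁻¹ * (X + X') * B = B⁻¹ * X * B + B⁻¹ * X' * B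
          rw [Matrix.mul_add, Matrix.add_mul]
        · show (0 : Matrix (Fin N) (Fin N) ℂ) = 0 + 0
          rw [add_zero]
      map_smul' := by
        intro a X
        ext1
        · show B⁻¹ * (a • X) * B = a • (B⁻¹ * X * B)
          rw [Matrix.mul_smul, Matrix.smul_mul]
        · show (0 : Matrix (Fin N) (Fin N) ℂ) = a • 0
          rw [smul_zero] }
  have hall := Pool.Agent.Y780.MT.idl ℂ m hm ((cx 𝔫).comap ψ) (by
    intro X hX Z hZ
    obtain ⟨Y', hY'⟩ := hliftC X hX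
    have h1 := ad_mem hbr hY' (show (B⁻¹ * Z * B, (0 : Matrix (Fin N) (Fin N) ℂ)) ∈ cx 𝔫 from hZ)
    show (B⁻¹ * (X * Z - Z * X) * B, (0 : Matrix (Fin N) (Fin N) ℂ)) ∈ cx 𝔫
    convert h1 using 1
    show _ = (B⁻¹ * X * B * (B⁻¹ * Z * B) - B⁻¹ * Z * B * (B⁻¹ * X * B), Y' * 0 - 0 * Y')
    ext1
    · show B⁻¹ * (X * Z - Z * X) * B = B⁻¹ * X * B * (B⁻¹ * Z * B) - B⁻¹ * Z * B * (B⁻¹ * X * B)
      have e : ∀ S T : Matrix (Fin (2 * m)) (Fin (2 * m)) ℂ, B⁻¹ * S * B * (B⁻¹ * T * B) = B⁻¹ * (S * T) * B := by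
        intro S T
        calc B⁻¹ * S * B * (B⁻¹ * T * B) = B⁻¹ * S * (B * B⁻¹) * T * B := by simp only [Matrix.mul_assoc]
          _ = _ := by
            rw [hBB, Matrix.mul_one]
            simp only [Matrix.mul_assoc]
      rw [e, e, Matrix.mul_sub, Matrix.sub_mul]
    · show (0 : Matrix (Fin N) (Fin N) ℂ) = Y' * 0 - 0 * Y'
      rw [Matrix.mul_zero, Matrix.zero_mul, sub_zero]) hE
  -- descent
  have hX1 : (B * cq X0 * B⁻¹) * SS ℂ (2 * m) + SS ℂ (2 * m) * (B * cq X0 * B⁻¹)ᵀ = 0 := by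
    have h1 : cq X0 * cq A + cq A * (cq X0)ᵀ = 0 := by
      rw [← cq_tr, ← cq_mul, ← cq_mul, ← cq_add, hX0, cq_zero]
    have h2 : SS ℂ (2 * m) = c⁻¹ • (B * cq A * Bᵀ) := by
      rw [hBA, smul_smul, inv_mul_cancel₀ hc, one_smul]
    rw [h2, Matrix.mul_smul, Matrix.smul_mul, ← smul_add, Matrix.transpose_mul, Matrix.transpose_mul, Matrix.transpose_nonsing_inv]
    have e1 : B * cq X0 * B⁻¹ * (B * cq A * Bᵀ) = B * (cq X0 * cq A) * Bᵀ := by
      calc B * cq X0 * B⁻¹ * (B * cq A * Bᵀ) = B * cq X0 * (B⁻¹ * B) * cq A * Bᵀ := by simp only [Matrix.mul_assoc]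
        _ = _ := by
          rw [hBB', Matrix.mul_one]
          simp only [Matrix.mul_assoc]
    have e2 : B * cq A * Bᵀ * (Bᵀ⁻¹ * ((cq X0)ᵀ * Bᵀ)) = B * (cq A * (cq X0)ᵀ) * Bᵀ := by
      calc B * cq A * Bᵀ * (Bᵀ⁻¹ * ((cq X0)ᵀ * Bᵀ)) = B * cq A * (Bᵀ * Bᵀ⁻¹) * (cq X0)ᵀ * Bᵀ := by simp only [Matrix.mul_assoc]
        _ = _ := by
          rw [Matrix.mul_nonsing_inv _ hBTu, Matrix.mul_one]
          simp only [Matrix.mul_assoc]
    rw [e1, e2, ← Matrix.add_mul, ← Matrix.mul_add, h1, Matrix.mul_zero, Matrix.zero_mul, smul_zero]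
  have h3 : (B⁻¹ * (B * cq X0 * B⁻¹) * B, (0 : Matrix (Fin N) (Fin N) ℂ)) ∈ cx 𝔫 := hall _ hX1
  have h4 : B⁻¹ * (B * cq X0 * B⁻¹) * B = cq X0 := by
    calc B⁻¹ * (B * cq X0 * B⁻¹) * B = (B⁻¹ * B) * cq X0 * (B⁻¹ * B) := by simp only [Matrix.mul_assoc]
      _ = _ := by rw [hBB', Matrix.one_mul, Matrix.mul_one]
  rw [h4] at h3
  refine descent (X := (X0, 0)) ?_
  show (cq X0, cq (0 : Matrix (Fin N) (Fin N) ℚ)) ∈ cx 𝔫
  rw [cq_zero]
  exact h3

end Pool.Agent.Y861.MT
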